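import Pool.Agent.U81.MP.Plt
import Pool.Agent.K4H55.AB.Cls

/-!
Tuples of discriminants: corrections and counting.
-/

set_option autoImplicit false

namespace Pool.Agent.U81.MP

open Filter Topology
open Pool.Agent.Y18.BSD (dd disc dd_ne_zero)
open Pool.Agent.K4H55.AB (GT DC disc_ne disc_symm dd_symm disc_pf dd_pf pf_disc disc_natAbs quant)
open scoped symmDiff

variable {A : Set ℕ} {pos : Prop} {P : Finset ℕ} {r : ℕ}

theorem dlevel_tup (hA : ∀ q ∈ A, q.Prime ∧ q ≠ 2) (NV : (Fin r → ℤ) → Prop)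
    (K : Finset (Fin r → Finset ℕ)) (hK : ∀ k ∈ K, ∀ j, GT A pos P (k j))
    (hcor : ∀ T : Fin r → Finset ℕ, (∀ j, GT A pos P (T j)) →
      ∃ k ∈ K, NV fun j => disc (T j ∆ k j)) :
    ∃ KD : Finset (Fin r → ℤ), KD.card ≤ K.card ∧ (∀ k ∈ KD, ∀ j, DC A pos P (k j)) ∧
      (∀ D : Fin r → ℤ, (∀ j, DC A pos P (D j)) → ∃ k ∈ KD, ∃ g D' : Fin r → ℤ,
        (∀ j, g j ≠ 0 ∧ D' j * g j ^ 2 = D j * k j ∧ DC A pos P (D' j)) ∧ NV D') ∧
      ∃ C : ℕ, ∀ X : ℕ, Nat.card {D : Fin r → ℤ // ∀ j, DC A pos P (D j) ∧ |D j| ≤ X} ≤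
        C * Nat.card {D : Fin r → ℤ // (∀ j, DC A pos P (D j) ∧ |D j| ≤ C * X) ∧ NV D} := by
  classical
  have hKp : ∀ k ∈ K, ∀ j, ∀ q ∈ k j, q.Prime ∧ q ≠ 2 := fun k hk j q hq =>
    hA q ((hK k hk j).adm q hq)
  refine ⟨K.image fun k j => disc (k j), Finset.card_image_le, ?_, ?_, ?_⟩
  · intro k hk j
    obtain ⟨t, ht, rfl⟩ := Finset.mem_image.1 hk
    exact (hK t ht j).dc hA
  · intro D hD
    obtain ⟨k, hk, h1⟩ := hcor (fun j => (D j).natAbs.primeFactors) fun j => (hD j).gt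
    refine ⟨fun j => disc (k j), Finset.mem_image_of_mem (fun (k : Fin r → Finset ℕ) j => disc (k j)) hk,
      fun j => disc ((D j).natAbs.primeFactors ∩ k j), _, fun j => ⟨?_, ?_,
      ((hD j).gt.symm hA (hK k hk j)).dc hA⟩, h1⟩
    · exact disc_ne fun q hq => (hKp k hk j q (Finset.mem_inter.1 hq).2).1
    · rw [disc_symm, disc_pf (hD j).sqf (hD j).one]
  · let M : ℕ := ∑ k ∈ K, ∑ j, dd (k j)
    have hM : ∀ k ∈ K, ∀ j, dd (k j) ≤ M := fun k hk j =>
      (Finset.single_le_sum (f := fun j => dd (k j)) (fun _ _ => Nat.zero_le _)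
        (Finset.mem_univ j)).trans
      (Finset.single_le_sum (f := fun k : Fin r → Finset ℕ => ∑ j, dd (k j))
        (fun _ _ => Nat.zero_le _) hk)
    refine ⟨K.card + M, fun X => ?_⟩
    have hfin : Finite {D : Fin r → ℤ // (∀ j, DC A pos P (D j) ∧
        |D j| ≤ ((K.card + M : ℕ) : ℤ) * X) ∧ NV D} := by
      refine Set.Finite.subset (Set.Finite.pi' fun _ : Fin r =>
        Set.finite_Icc (-(((K.card + M : ℕ) : ℤ) * X)) (((K.card + M : ℕ) : ℤ) * X)) ?_
      rintro D ⟨h2, -⟩ j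
      exact abs_le.1 (h2 j).2
    choose! t ht1 ht2 using hcor
    let pf : (Fin r → ℤ) → Fin r → Finset ℕ := fun D j => (D j).natAbs.primeFactors
    have hpf : ∀ D : {D : Fin r → ℤ // ∀ j, DC A pos P (D j) ∧ |D j| ≤ X},
        ∀ j, GT A pos P (pf D.1 j) := fun D j => (D.2 j).1.gt
    let φ : {D : Fin r → ℤ // ∀ j, DC A pos P (D j) ∧ |D j| ≤ X} →
        K × {D : Fin r → ℤ // (∀ j, DC A pos P (D j) ∧
        |D j| ≤ ((K.card + M : ℕ) : ℤ) * X) ∧ NV D} := fun D =>
      ⟨⟨t (pf D.1), ht1 _ (hpf D)⟩,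
        ⟨fun j => disc (pf D.1 j ∆ t (pf D.1) j), fun j =>
          ⟨((hpf D j).symm hA (hK _ (ht1 _ (hpf D)) j)).dc hA, by
            have h1 : |disc (pf D.1 j ∆ t (pf D.1) j)| =
                ((dd (pf D.1 j ∆ t (pf D.1) j) : ℕ) : ℤ) := by
              rw [← disc_natAbs, Int.natCast_natAbs]
            rw [h1]
            have h2 := dd_symm (pf D.1 j) (t (pf D.1) j)
            have h2' : dd (pf D.1 j) = (D.1 j).natAbs := dd_pf (D.2 j).1.sqf
            rw [h2'] at h2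
            have h3 : 0 < dd (pf D.1 j ∩ t (pf D.1) j) :=
              Nat.pos_of_ne_zero (dd_ne_zero fun q hq =>
                Nat.prime_of_mem_primeFactors (Finset.mem_inter.1 hq).1)
            have h4 : dd (pf D.1 j ∆ t (pf D.1) j) ≤
                (D.1 j).natAbs * dd (t (pf D.1) j) := by
              rw [← h2]
              exact Nat.le_mul_of_pos_right _ (pow_pos h3 2)
            have h5 : (D.1 j).natAbs ≤ X := by
              have := (D.2 j).2
              rw [← Int.natCast_natAbs] at this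
              exact_mod_cast this
            have h6 : dd (pf D.1 j ∆ t (pf D.1) j) ≤
                (K.card + M) * X := by
              calc _ ≤ (D.1 j).natAbs * dd (t (pf D.1) j) := h4
                _ ≤ X * M := Nat.mul_le_mul h5 (hM _ (ht1 _ (hpf D)) j)
                _ ≤ (K.card + M) * X := by
                  rw [mul_comm]
                  exact Nat.mul_le_mul_right X (Nat.le_add_left _ _)
            exact_mod_cast h6⟩, ht2 _ (hpf D)⟩⟩
    have hφ : Function.Injective φ := by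
      intro D D' h
      have h1 : t (pf D.1) = t (pf D'.1) :=
        congrArg (fun x => (x.1 : Fin r → Finset ℕ)) h
      have h2 : (fun j => disc (pf D.1 j ∆ t (pf D.1) j)) =
          fun j => disc (pf D'.1 j ∆ t (pf D'.1) j) :=
        congrArg (fun x => (x.2 : Fin r → ℤ)) h
      have hp : ∀ (D : {D : Fin r → ℤ // ∀ j, DC A pos P (D j) ∧ |D j| ≤ X}) (j : Fin r),
          ∀ q ∈ pf D.1 j ∆ t (pf D.1) j, q.Prime := fun D j q hq =>
        (hA q (((hpf D j).symm hA (hK _ (ht1 _ (hpf D)) j)).adm q hq)).1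
      apply Subtype.ext
      funext j
      have h3 := congrArg (fun d : ℤ => d.natAbs.primeFactors) (congrFun h2 j)
      simp only [pf_disc (hp D j), pf_disc (hp D' j)] at h3
      rw [← h1] at h3
      have h4 := symmDiff_left_injective _ h3
      have h5 := congrArg disc h4
      have e1 : disc (pf D.1 j) = D.1 j := disc_pf (D.2 j).1.sqf (D.2 j).1.one
      have e2 : disc (pf D'.1 j) = D'.1 j := disc_pf (D'.2 j).1.sqf (D'.2 j).1.one
      rwa [e1, e2] at h5
    have h1 := Nat.card_le_card_of_injective φ hφ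
    rw [Nat.card_prod, Nat.card_eq_fintype_card (α := K), Fintype.card_coe] at h1
    exact h1.trans (Nat.mul_le_mul_right _ (Nat.le_add_right _ _))

lemma dc_one : DC A pos P 1 := by
  refine ⟨squarefree_one, by norm_num, fun q hq hd => ?_, fun _ => one_pos, fun p _ => by simp⟩
  have h1 : (q : ℤ) ∣ 1 := hd
  exact absurd (Int.natCast_dvd.1 h1) (by
    simp only [Int.natAbs_one, Nat.dvd_one]
    exact hq.ne_one)

/-- **The number of the good tuples.** -/
theorem quant_tup (hA : ∀ q ∈ A, q.Prime ∧ q ≠ 2) {d : ℝ} (hd : 0 < d)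
    (hdens : ∀ B : Set ℕ, B.Finite → ∀ᶠ N : ℕ in atTop,
      d * (N / Real.log N) ≤ Pool.Agent.K4H55.AB.Cnt.cA (A \ B) N) :
    ∃ δ : ℝ, 0 < δ ∧ δ < 1 ∧ ∀ (pos : Prop) (P : Finset ℕ), (∀ p ∈ P, p.Prime) →
      ∀ (r : ℕ) (NV : (Fin r → ℤ) → Prop) (C : ℕ),
      (∀ X : ℕ, Nat.card {D : Fin r → ℤ // ∀ j, DC A pos P (D j) ∧ |D j| ≤ X} ≤
        C * Nat.card {D : Fin r → ℤ // (∀ j, DC A pos P (D j) ∧ |D j| ≤ C * X) ∧ NV D}) →
      ∃ X0 : ℕ, ∀ X : ℕ, X0 ≤ X → ((X : ℝ) / Real.log X ^ (1 - δ)) ^ r ≤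
        Nat.card {D : Fin r → ℤ // (∀ j, DC A pos P (D j) ∧ |D j| ≤ X) ∧ NV D} := by
  classical
  obtain ⟨δ, hδ, hδ1, hq⟩ := quant hA hd hdens
  refine ⟨δ / 2, by positivity, by linarith, fun pos P hP r NV C hC => ?_⟩
  obtain ⟨X1, hX1⟩ := hq (fun _ => True) pos P hP 1 (fun X => by
    rw [one_mul]
    refine le_of_eq (Nat.card_congr (Equiv.subtypeEquivRight fun D => ?_))
    simp)
  have hlog : Tendsto (fun X : ℕ => Real.log X) atTop atTop :=
    Real.tendsto_log_atTop.comp tendsto_natCast_atTop_atTop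
  set C1 : ℕ := C + 1 with hC1
  have e1 : ∀ᶠ Y : ℕ in atTop, (2 * C1 * C1 : ℝ) ≤ (Real.log Y) ^ (δ / 2) :=
    ((tendsto_rpow_atTop (by positivity : 0 < δ / 2)).comp hlog).eventually_ge_atTop _
  refine eventually_atTop.1 ?_
  filter_upwards [e1, eventually_ge_atTop ((X1 + 3) * C1 + 2 * C1)] with Y hY1 hY2
  have hC1p : 0 < C1 := by omega
  set X : ℕ := Y / C1 with hX
  have hX1' : X1 + 3 ≤ X := by
    rw [hX, Nat.le_div_iff_mul_le hC1p]
    omega
  have hXY : C1 * X ≤ Y := Nat.mul_div_le Y C1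
  have hfin : Finite {D : Fin r → ℤ // (∀ j, DC A pos P (D j) ∧ |D j| ≤ (Y : ℤ)) ∧ NV D} := by
    refine Set.Finite.subset (Set.Finite.pi' fun _ : Fin r =>
      Set.finite_Icc (-(Y : ℤ)) (Y : ℤ)) ?_
    rintro D ⟨h2, -⟩ j
    exact abs_le.1 (h2 j).2
  set F : ℕ := Nat.card {D : Fin r → ℤ // (∀ j, DC A pos P (D j) ∧ |D j| ≤ (Y : ℤ)) ∧ NV D}
    with hF
  set N : ℕ := Nat.card {D : ℤ // DC A pos P D ∧ |D| ≤ X} with hN
  have h2 : N ^ r ≤ C * F := by
    have h3 : Nat.card {D : Fin r → ℤ // ∀ j, DC A pos P (D j) ∧ |D j| ≤ X} = N ^ r := by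
      have e : {D : Fin r → ℤ // ∀ j, DC A pos P (D j) ∧ |D j| ≤ X} ≃
          (Fin r → {D : ℤ // DC A pos P D ∧ |D| ≤ X}) :=
        Equiv.subtypePiEquivPi (p := fun (_ : Fin r) (D : ℤ) => DC A pos P D ∧ |D| ≤ (X : ℤ))
      rw [Nat.card_congr e, Nat.card_fun, Nat.card_eq_fintype_card (α := Fin r), Fintype.card_fin]
    rw [← h3]
    refine (hC X).trans (Nat.mul_le_mul_left _ ?_)
    refine Nat.card_le_card_of_injective (fun D => (⟨D.1, fun j => ⟨(D.2.1 j).1,
      (D.2.1 j).2.trans ?_⟩, D.2.2⟩ :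
      {D : Fin r → ℤ // (∀ j, DC A pos P (D j) ∧ |D j| ≤ (Y : ℤ)) ∧ NV D})) ?_
    · have h4 : C * X ≤ Y := (Nat.mul_le_mul_right _ (Nat.le_succ _)).trans hXY
      exact_mod_cast h4
    · intro D D' h
      exact Subtype.ext (congrArg (fun x => x.1) h)
  have h3 : (X : ℝ) / Real.log X ^ (1 - δ) ≤ N := by
    refine (hX1 X (by omega)).trans (le_of_eq ?_)
    rw [hN]
    congr 1
    refine Nat.card_congr (Equiv.subtypeEquivRight fun D => ?_)
    simp
  have hC1r : (1 : ℝ) ≤ C1 := by exact_mod_cast hC1p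
  have hXr : (3 : ℝ) ≤ X := by exact_mod_cast (by omega : 3 ≤ X)
  have hlX : 0 < Real.log X := Real.log_pos (by linarith)
  have hXY' : (X : ℝ) ≤ Y := by exact_mod_cast Nat.div_le_self Y C1
  have hYr : (0 : ℝ) < Y := by linarith
  have hlXY : Real.log X ≤ Real.log Y := Real.log_le_log (by linarith) hXY'
  have hlY : 0 < Real.log Y := by linarith
  have h4 : (Y : ℝ) / (2 * C1) ≤ X := by
    rw [div_le_iff₀ (by positivity)]
    have h5 : Y < C1 * (X + 1) := by
      rw [hX]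
      have := Nat.div_add_mod Y C1
      have := Nat.mod_lt Y hC1p
      nlinarith
    have h6 : (Y : ℝ) ≤ C1 * (X + 1) := by exact_mod_cast h5.le
    nlinarith
  set u : ℝ := Real.log Y ^ (1 - δ) with hu
  set t : ℝ := Real.log Y ^ (δ / 2) with ht
  have hu0 : 0 < u := Real.rpow_pos_of_pos hlY _
  have ht0 : 0 < t := Real.rpow_pos_of_pos hlY _
  have hut : Real.log Y ^ (1 - δ / 2) = u * t := by
    rw [hu, ht, ← Real.rpow_add hlY]
    congr 1
    ring
  have h5 : (Y : ℝ) / (2 * C1) / u ≤ N := by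
    refine le_trans ?_ h3
    apply div_le_div₀ (by positivity) h4 (Real.rpow_pos_of_pos hlX _)
    exact Real.rpow_le_rpow hlX.le hlXY (by linarith)
  have h6 : ((Y : ℝ) / (2 * C1) / u) ^ r ≤ C * F := by
    refine (pow_le_pow_left₀ (by positivity) h5 r).trans ?_
    exact_mod_cast h2
  rw [hut]
  rcases Nat.eq_zero_or_pos r with hr | hr
  · subst hr
    rw [pow_zero]
    have h7 : 1 ≤ C * F := by simpa using h2
    have h8 : 1 ≤ F := by
      rcases Nat.eq_zero_or_pos F with h9 | h9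
      · rw [h9, mul_zero] at h7
        omega
      · exact h9
    exact_mod_cast h8
  · have h7 : (Y : ℝ) / (u * t) ≤ (Y : ℝ) / (2 * C1) / u * (1 / C1) := by
      rw [div_div, div_mul_div_comm, mul_one, div_le_div_iff₀ (by positivity) (by positivity)]
      have h8 : (2 * C1 * C1 : ℝ) * (Y * u) ≤ t * (Y * u) :=
        mul_le_mul_of_nonneg_right hY1 (by positivity)
      nlinarith
    calc ((Y : ℝ) / (u * t)) ^ r ≤ ((Y : ℝ) / (2 * C1) / u * (1 / C1)) ^ r :=
          pow_le_pow_left₀ (by positivity) h7 r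
      _ = ((Y : ℝ) / (2 * C1) / u) ^ r * (1 / (C1 : ℝ)) ^ r := by rw [mul_pow]
      _ ≤ (C * F) * (1 / C1) := by
          refine mul_le_mul h6 ?_ (by positivity) (by positivity)
          refine (pow_le_pow_of_le_one (by positivity) ?_ hr).trans (by rw [pow_one])
          rw [div_le_one (by linarith)]
          exact hC1r
      _ ≤ F := by
          rw [mul_one_div, div_le_iff₀ (by linarith)]
          have h8 : (C : ℝ) ≤ C1 := by
            rw [hC1]; push_cast; linarith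
          have h9 : (0 : ℝ) ≤ F := Nat.cast_nonneg _
          nlinarith

end Pool.Agent.U81.MP
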