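import Pool.Agent.U81.MP.Prd
import Pool.Agent.U81.MQ.Top
import Pool.Agent.K4H55.BD.Fin

/-!
The fields generated by the square roots of a tuple of discriminants.
-/

set_option autoImplicit false

namespace Pool.Agent.U81.MP

open NumberField IsDedekindDomain Pointwise WithZero
open Pool.Agent.K4H15.BW (tower roots root_mem efD NVD)
open Pool.Agent.K4H55.BI (IQ BF)
open Pool.Agent.K4H55.BD (low mem_low pv crv Cub QE densK tau Spl spl_sq val_q int_mem disc_mem sq_loc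
  nv_cases P0 mem_P0 NVE ef uniq_over)
open Pool.Agent.K4H55.CX (facF SelG fin_up noroot_up)
open Pool.Agent.K4H55.AB (GT DC disc_ne disc_symm disc_pf dd_pf pf_disc disc_mod disc_natAbs)
open Pool.Agent.U81.BX (fct)
open Pool.Agent.U81.MQ
open Pool.Agent.Y18.BSD (dd disc dd_ne_zero recip)
open scoped symmDiff

variable {K : Type} [Field K] [NumberField K] {σ : K →+* ℂ} {δ : K} {a b n : 𝓞 K}
  {c : Ideal (𝓞 K) → ℂ}

/-- squares modulo the primes of the local conditions -/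
lemma sq_res {T : Finset ℕ} (hT : ∀ q ∈ T, q.Prime ∧ q ≠ 2) {p : ℕ} (hp : p.Prime)
    (h1 : jacobiSym p (dd T) = 1) :
    (p = 2 → disc T % 8 = 1) ∧ ¬ (p : ℤ) ∣ disc T ∧ ∃ y : ℤ, (p : ℤ) ∣ disc T - y ^ 2 := by
  have hn0 : NeZero (dd T) := ⟨dd_ne_zero fun q hq => (hT q hq).1⟩
  by_cases hp2 : p = 2
  · subst hp2
    have hd4 : disc T % 4 = 1 := disc_mod hT
    have hodd : Odd (dd T) := by
      have h3 : (disc T).natAbs = dd T := disc_natAbs T
      rw [Nat.odd_iff]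
      omega
    have h2 := jacobiSym.at_two hodd
    rw [show ((2 : ℕ) : ℤ) = 2 from rfl] at h1
    rw [h1] at h2
    have h3 : (disc T).natAbs = dd T := disc_natAbs T
    rw [ZMod.χ₈_nat_eq_if_mod_eight] at h2
    refine ⟨fun _ => ?_, ?_, 1, ?_⟩
    · split_ifs at h2 with h4 h5
      all_goals omega
    · push_cast
      omega
    · push_cast
      omega
  · have : Fact p.Prime := ⟨hp⟩
    have hpT : p ∉ T := by
      intro hpT
      have h2 : p ∣ dd T := Finset.dvd_prod_of_mem _ hpT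
      have h3 : jacobiSym (p : ℤ) (dd T) = 0 := by
        rw [jacobiSym.eq_zero_iff_not_coprime, Int.gcd_natCast_natCast]
        intro h7
        exact hp.one_lt.ne' (Nat.Coprime.eq_one_of_dvd h7 h2)
      rw [h3] at h1
      exact zero_ne_one h1
    have h2 := recip hT p hp2 hpT
    rw [h1] at h2
    have hD0 : ((disc T : ℤ) : ZMod p) ≠ 0 := by
      intro h3
      rw [h3, quadraticChar_zero] at h2
      exact zero_ne_one h2
    obtain ⟨y, hy⟩ := (quadraticChar_one_iff_isSquare hD0).1 h2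
    refine ⟨fun h3 => absurd h3 hp2, fun h3 => hD0 ((ZMod.intCast_zmod_eq_zero_iff_dvd _ _).2 h3),
      (y.val : ℤ), ?_⟩
    rw [← ZMod.intCast_zmod_eq_zero_iff_dvd]
    push_cast
    rw [ZMod.natCast_zmod_val, hy]
    ring

/-- the valuations of a discriminant of the class -/
lemma dc_val (h : IQ K σ δ) {pos : Prop} {P : Finset ℕ} {D : ℤ}
    (hD : DC (QE h a b n) pos P D) {v : HeightOneSpectrum (𝓞 K)}
    (hDv : ((D : ℤ) : 𝓞 K) ∈ v.asIdeal) :
    v.valuation K (((D : ℤ) : 𝓞 K) : K) = exp (-1 : ℤ) ∧ (∀ x : 𝓞 K, x ^ 3 + a * x + b ∉ v.asIdeal) ∧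
      ∃ q ∈ QE h a b n, (q : 𝓞 K) ∈ v.asIdeal := by
  have hdD := disc_pf hD.sqf hD.one
  have h2 := hDv
  rw [← hdD] at h2
  obtain ⟨q, hq, hqv⟩ := disc_mem.1 h2
  have hqA := hD.gt.adm q hq
  refine ⟨?_, (hqA.2 v hqv).2.2, q, hqA, hqv⟩
  have hqD : (q : ℤ) ∣ D := Int.natCast_dvd.2 (Nat.dvd_of_mem_primeFactors hq)
  obtain ⟨m, rfl⟩ := hqD
  have hqm : ¬ (q : ℤ) ∣ m := by
    rintro ⟨k, rfl⟩
    have h3 := hD.sqf (q : ℤ) ⟨k, by ring⟩
    have h4 := Int.isUnit_iff.1 h3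
    have h5 := hqA.1.pr.two_le
    omega
  have hmv : (m : 𝓞 K) ∉ v.asIdeal := fun h3 => hqm ((int_mem hqA.1.pr hqv).1 h3)
  have e : (((q : ℤ) * m : ℤ) : 𝓞 K) = (q : 𝓞 K) * (m : 𝓞 K) := by push_cast; ring
  have h3 : v.valuation K (algebraMap (𝓞 K) K (m : 𝓞 K)) = 1 := by
    rw [v.valuation_of_algebraMap]
    exact HeightOneSpectrum.intValuation_eq_one_iff.2 hmv
  show v.valuation K (algebraMap (𝓞 K) K (((q : ℤ) * m : ℤ) : 𝓞 K)) = _
  rw [e, map_mul, map_mul, h3, mul_one]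
  exact val_q hqv (spl_sq h hqA.1 hqv)

variable {r : ℕ}

/-- the discriminants of the tuple -/
noncomputable def DS (D : Fin r → ℤ) (S : Finset (Fin r)) : ℤ :=
  disc (sd S fun j => (D j).natAbs.primeFactors)

/-- the set of the discriminants of the tuple -/
def DSet (K : Type) [Field K] [NumberField K] (D : Fin r → ℤ) : Set (𝓞 K) :=
  {x | ∃ S : Finset (Fin r), x = ((DS D S : ℤ) : 𝓞 K)}

variable {A : Set ℕ} {pos : Prop} {P : Finset ℕ} {D : Fin r → ℤ}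

lemma DS_dc (hA : ∀ q ∈ A, q.Prime ∧ q ≠ 2) (hD : ∀ j, DC A pos P (D j)) (S : Finset (Fin r)) :
    DC A pos P (DS D S) :=
  (sd_gt hA (fun j => (hD j).gt) S).dc hA

lemma DS_single (hD : ∀ j, DC A pos P (D j)) (j : Fin r) : DS D {j} = D j := by
  unfold DS
  rw [sd_single]
  exact disc_pf (hD j).sqf (hD j).one

lemma qe_two (h : IQ K σ δ) : ∀ q ∈ QE h a b n, q.Prime ∧ q ≠ 2 := fun q hq =>
  ⟨hq.1.pr, hq.1.odd⟩

lemma twr_tuple (h : IQ K σ δ) (hD : ∀ j, DC (QE h a b n) pos P (D j)) : Twr (DSet K D) := by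
  classical
  refine ⟨?_, ⟨∅, ?_⟩, ?_, ?_⟩
  · rintro _ ⟨S, rfl⟩ h0
    have h1 : DS D S = 0 := by exact_mod_cast h0
    have h2 := (DS_dc (qe_two h) hD S).one
    omega
  · unfold DS
    rw [sd_empty]
    simp [disc]
  · rintro _ ⟨S, rfl⟩ _ ⟨S', rfl⟩
    refine ⟨_, ⟨S ∆ S', rfl⟩, ((disc (sd S (fun j => (D j).natAbs.primeFactors) ∩
      sd S' fun j => (D j).natAbs.primeFactors) : ℤ) : 𝓞 K), ?_, ?_⟩
    · intro h0
      have h1 : disc (sd S (fun j => (D j).natAbs.primeFactors) ∩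
        sd S' fun j => (D j).natAbs.primeFactors) = 0 := by exact_mod_cast h0
      exact disc_ne (fun q hq => (qe_two h q ((sd_gt (qe_two h) (fun j => (hD j).gt) S).adm q
        (Finset.mem_inter.1 hq).1)).1) h1
    · unfold DS
      rw [sd_symm]
      exact_mod_cast disc_symm _ _
  · rintro _ ⟨S, rfl⟩ v hv
    exact (dc_val h (DS_dc (qe_two h) hD S) hv).1

/-- the field generated by the square roots -/
lemma adj_le (hD : ∀ j, DC A pos P (D j)) :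
    IntermediateField.adjoin K {x : AlgebraicClosure K | ∃ j, x ^ 2 = ((D j : ℤ) : AlgebraicClosure K)} ≤
      tower (DSet K D) := by
  rw [IntermediateField.adjoin_le_iff]
  rintro x ⟨j, hx⟩
  refine root_mem (𝒟 := DSet K D) (D := ((DS D {j} : ℤ) : 𝓞 K)) ⟨{j}, rfl⟩ ?_
  rw [DS_single hD j, hx]
  simp

section bad

variable (h : IQ K σ δ) (hx : 2 * (4 * a ^ 3 + 27 * b ^ 2) ≠ 0)
  (hD : ∀ j, DC (QE h a b n) pos (P ∪ P0 h hx) (D j))
include hD

lemma bad_sq {v : HeightOneSpectrum (𝓞 K)} (hv : 2 * (4 * a ^ 3 + 27 * b ^ 2) ∈ v.asIdeal)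
    {x : 𝓞 K} (hxD : x ∈ DSet K D) : IsSquare (algebraMap K (v.adicCompletion K) x) := by
  obtain ⟨S, rfl⟩ := hxD
  obtain ⟨p, hp, hpv, -⟩ := nv_cases h v
  have hS := DS_dc (qe_two h) hD S
  have h2 := hS.loc p (Finset.mem_union_right _ ((mem_P0 h hx).2 ⟨hp, v, hpv, hv⟩))
  rw [← dd_pf hS.sqf] at h2
  have h3 := sq_loc (fun q hq => qe_two h q (hS.gt.adm q hq)) hp h2 v hpv
  rw [disc_pf hS.sqf hS.one] at h3
  simpa using h3

lemma bad_res {v : HeightOneSpectrum (𝓞 K)} (hv : 2 * (4 * a ^ 3 + 27 * b ^ 2) ∈ v.asIdeal)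
    {x : 𝓞 K} (hxD : x ∈ DSet K D) : x ∉ v.asIdeal ∧ ∃ y : 𝓞 K, x - y ^ 2 ∈ v.asIdeal := by
  obtain ⟨S, rfl⟩ := hxD
  obtain ⟨p, hp, hpv, -⟩ := nv_cases h v
  have hS := DS_dc (qe_two h) hD S
  have h2 := hS.loc p (Finset.mem_union_right _ ((mem_P0 h hx).2 ⟨hp, v, hpv, hv⟩))
  rw [← dd_pf hS.sqf] at h2
  obtain ⟨-, h3, y, h4⟩ := sq_res (fun q hq => qe_two h q (hS.gt.adm q hq)) hp h2
  rw [disc_pf hS.sqf hS.one] at h3 h4
  refine ⟨fun h5 => h3 ((int_mem hp hpv).1 h5), (y : 𝓞 K), ?_⟩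
  have h5 := (int_mem hp hpv).2 h4
  push_cast at h5
  exact h5

lemma bad_eight {x : 𝓞 K} (hxD : x ∈ DSet K D) : (8 : 𝓞 K) ∣ x - 1 := by
  obtain ⟨S, rfl⟩ := hxD
  have hS := DS_dc (qe_two h) hD S
  have := h.pid
  obtain ⟨v, hv⟩ := Pool.Agent.K4H55.BD.exists_over h Nat.prime_two
  have h2 := hS.loc 2 (Finset.mem_union_right _ ((mem_P0 h hx).2 ⟨Nat.prime_two, v, hv,
    v.asIdeal.mul_mem_right _ (by exact_mod_cast hv)⟩))
  rw [← dd_pf hS.sqf] at h2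
  have h3 := (sq_res (fun q hq => qe_two h q (hS.gt.adm q hq)) Nat.prime_two h2).1 rfl
  rw [disc_pf hS.sqf hS.one] at h3
  obtain ⟨m, hm⟩ : (8 : ℤ) ∣ DS D S - 1 := by omega
  refine ⟨(m : 𝓞 K), ?_⟩
  exact_mod_cast congrArg (Int.cast (R := 𝓞 K)) hm

end bad

variable {L : Type} [Field L] [NumberField L] [Algebra K L] {θ : L}

/-- **The layers.** -/
theorem layer (h : IQ K σ δ) [IsPrincipalIdealRing (𝓞 K)]
    (hx : 2 * (4 * a ^ 3 + 27 * b ^ 2) ≠ 0)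
    (hE : ∀ v : HeightOneSpectrum (𝓞 K), 2 * (4 * a ^ 3 + 27 * b ^ 2) ∉ v.asIdeal →
      n ∉ v.asIdeal ∧ c v.asIdeal = (Ideal.absNorm v.asIdeal : ℂ) - pv a b v) (hK : Cub K θ)
    (hθ : θ ^ 3 + algebraMap K L a * θ + algebraMap K L b = 0) (hS : SelG a b θ)
    (hD : ∀ j, DC (QE h a b n) pos (P ∪ P0 h hx) (D j))
    (F : IntermediateField K (AlgebraicClosure K)) [NumberField F]
    (hF : F ≤ IntermediateField.adjoin K {x : AlgebraicClosure K |
      ∃ j, x ^ 2 = ((D j : ℤ) : AlgebraicClosure K)}) :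
    IsGalois K F ∧ (∃ k : ℕ, Module.finrank K F = 2 ^ k) ∧
      (∀ v : HeightOneSpectrum (𝓞 K), 2 * (4 * a ^ 3 + 27 * b ^ 2) ∈ v.asIdeal →
        Nonempty (F →ₐ[K] v.adicCompletion K)) ∧
      ((Finite (crv (algebraMap K F a) (algebraMap K F b)).toAffine.Point ∧
        Odd (Nat.card (crv (algebraMap K F a) (algebraMap K F b)).toAffine.Point)) ∧
      (∀ (k : ℕ) (s : Pool.Agent.TH841.NF.D.Sha (crv (algebraMap K F a) (algebraMap K F b))),
        (2 ^ k : ℕ) • s = 0 → s = 0) ∧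
      ∀ x : Pool.Agent.Y667.BKP.H1f 2 (crv (algebraMap K F a) (algebraMap K F b)), x = 0) ∧
      ((∀ S, NVE a b n c (DS D S)) → ∃ G : ℂ → ℂ, Differentiable ℂ G ∧
        (∀ s : ℂ, 2 < s.re → HasProd (fct (F := F) a b n c s) (G s)) ∧ G 1 ≠ 0) := by
  classical
  have hΔ : 4 * a ^ 3 + 27 * b ^ 2 ≠ 0 := fun h1 => hx (by rw [h1, mul_zero])
  have hF' : F ≤ tower (DSet K D) := hF.trans (adj_le hD)
  have hT := twr_tuple h hD
  have hfd : FiniteDimensional K F := Module.Finite.of_restrictScalars_finite ℚ K F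
  have hgal := gal_sub F hF'
  obtain ⟨k, hk⟩ := rank_two F hF'
  obtain ⟨DD, x, hkum, hDD⟩ := exists_kum hT F hF'
  have hemb : ∀ v : HeightOneSpectrum (𝓞 K), 2 * (4 * a ^ 3 + 27 * b ^ 2) ∈ v.asIdeal →
      Nonempty (F →ₐ[K] v.adicCompletion K) := fun v hv =>
    emb_sub v (fun y hy => bad_sq h hx hD hv hy) F hF'
  have h2u : ∀ u : HeightOneSpectrum (𝓞 F),
      2 * (4 * a ^ 3 + 27 * b ^ 2) ∉ (low (K := K) u).asIdeal → (2 : 𝓞 F) ∉ u.asIdeal := by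
    intro u hu h2
    apply hu
    refine (low (K := K) u).asIdeal.mul_mem_right _ ?_
    rw [mem_low, map_ofNat]
    exact h2
  refine ⟨hgal, ⟨k, hk⟩, hemb, ?_, fun hnv => ?_⟩
  · refine fin_up (F := F) hΔ hK hθ hS hk hemb fun u hu => ?_
    by_cases hex : ∃ χ, DD χ ∈ (low (K := K) u).asIdeal
    · obtain ⟨χ, hχ⟩ := hex
      obtain ⟨S, hS2⟩ := hDD χ
      rw [hS2] at hχ
      exact Or.inl (dc_val h (DS_dc (qe_two h) hD S) hχ).2.1
    · push Not at hex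
      exact Or.inr fun y => hkum.unram u (h2u u hu) hex y
  · refine prod_sq hkum hΔ hE (fun χ => bad_eight h hx hD (hDD χ))
      (fun v hv χ => bad_res h hx hD hv (hDD χ)) fun χ => ?_
    obtain ⟨S, hS2⟩ := hDD χ
    rw [hS2]
    exact hnv S

end Pool.Agent.U81.MP
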