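import Pool.Agent.U81.MP.Dep

/-!
The positive share, with independent tuples.
-/

set_option autoImplicit false

namespace Pool.Agent.U81.MP

open NumberField IsDedekindDomain Filter Topology WithZero
open Pool.Agent.K4H15.BW (NVD)
open Pool.Agent.K4H55.BI (IQ BF)
open Pool.Agent.K4H55.BD (pv Cub QE P0)
open Pool.Agent.K4H55.AB (DC)

lemma small {r : ℕ} (hr : 1 ≤ r) {ε : ℝ} (hε : 0 < ε) (hε1 : ε < 1) {A B : ℝ} (hA : 0 < A)
    (hB : 0 ≤ B) : ∀ᶠ X : ℕ in atTop, A * (B * X + 1) ^ (r - 1) ≤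
      ((X : ℝ) / Real.log X ^ (1 - ε)) ^ r := by
  have hlog : Tendsto (fun X : ℕ => Real.log X) atTop atTop :=
    Real.tendsto_log_atTop.comp tendsto_natCast_atTop_atTop
  set M : ℝ := A * (B + 1) ^ (r - 1) with hM
  have hM0 : 0 < M := by positivity
  have h1 := (Real.isLittleO_pow_log_id_atTop (n := r)).bound (c := 1 / M) (by positivity)
  have h2 := tendsto_natCast_atTop_atTop (R := ℝ) |>.eventually h1
  filter_upwards [h2, eventually_ge_atTop 1, hlog.eventually_ge_atTop 1] with X h3 h4 h5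
  have hX : (1 : ℝ) ≤ X := by exact_mod_cast h4
  have hL : 0 < Real.log X := by linarith
  set u : ℝ := Real.log X ^ (1 - ε) with hu
  have hu0 : 0 < u := Real.rpow_pos_of_pos hL _
  have hu1 : u ≤ Real.log X := by
    calc u ≤ Real.log X ^ (1 : ℝ) := Real.rpow_le_rpow_of_exponent_le h5 (by linarith)
      _ = Real.log X := Real.rpow_one _
  have h6 : M * Real.log X ^ r ≤ X := by
    simp only [Real.norm_eq_abs, id] at h3
    rw [abs_of_nonneg (by positivity : (0 : ℝ) ≤ Real.log X ^ r), abs_of_nonneg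
      (by linarith : (0 : ℝ) ≤ X), one_div, inv_mul_eq_div, le_div_iff₀ hM0] at h3
    linarith
  have h7 : M * u ^ r ≤ X := by
    refine le_trans ?_ h6
    exact mul_le_mul_of_nonneg_left (pow_le_pow_left₀ hu0.le hu1 r) hM0.le
  rw [div_pow, le_div_iff₀ (by positivity)]
  obtain ⟨m, rfl⟩ : ∃ m, r = m + 1 := ⟨r - 1, by omega⟩
  rw [Nat.add_sub_cancel] at hM ⊢
  have h8 : (B * X + 1) ^ m ≤ (B + 1) ^ m * X ^ m := by
    rw [← mul_pow]
    exact pow_le_pow_left₀ (by positivity) (by nlinarith) m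
  calc A * (B * X + 1) ^ m * u ^ (m + 1) ≤ A * ((B + 1) ^ m * X ^ m) * u ^ (m + 1) := by
        gcongr
    _ = (X : ℝ) ^ m * (M * u ^ (m + 1)) := by rw [hM]; ring
    _ ≤ (X : ℝ) ^ m * X := by gcongr
    _ = (X : ℝ) ^ (m + 1) := by rw [pow_succ]

variable {K : Type} [Field K] [NumberField K] {σ : K →+* ℂ} {δ : K} {a b n : 𝓞 K}
  {c : Ideal (𝓞 K) → ℂ} {L : Type} [Field L] [NumberField L] [Algebra K L] {θ : L}

/-- independence modulo the squares of `K` -/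
def Ind (K : Type) [Field K] {r : ℕ} (D : Fin r → ℤ) : Prop :=
  ∀ S : Finset (Fin r), S.Nonempty → ¬ IsSquare (∏ j ∈ S, ((D j : ℤ) : K))

theorem share_ind (h : IQ K σ δ) [hP : IsPrincipalIdealRing (𝓞 K)]
    (hx : 2 * (4 * a ^ 3 + 27 * b ^ 2) ≠ 0) (hf : BF σ δ n c)
    (hc : ∀ v : HeightOneSpectrum (𝓞 K), 2 * (4 * a ^ 3 + 27 * b ^ 2) ∉ v.asIdeal →
      n ∉ v.asIdeal ∧ c v.asIdeal = (Ideal.absNorm v.asIdeal : ℂ) - pv a b v)
    (h0 : NVD a b n c 1) (hcub : Cub K θ)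
    (hθ : θ ^ 3 + algebraMap K L a * θ + algebraMap K L b = 0) :
    ∃ ε : ℝ, 0 < ε ∧ ε < 1 ∧ ∀ r : ℕ, 1 ≤ r → ∃ V : ℕ, ∀ (pos : Prop) (P : Finset ℕ),
      (∀ p ∈ P, p.Prime) →
      (∃ KD : Finset (Fin r → ℤ), KD.card ≤ V ∧
      (∀ k ∈ KD, ∀ j, DC (QE h a b n) pos (P ∪ P0 h hx) (k j)) ∧
      (∀ D : Fin r → ℤ, (∀ j, DC (QE h a b n) pos (P ∪ P0 h hx) (D j)) →
        ∃ k ∈ KD, ∃ g D' : Fin r → ℤ, (∀ j, g j ≠ 0 ∧ D' j * g j ^ 2 = D j * k j ∧
          DC (QE h a b n) pos (P ∪ P0 h hx) (D' j)) ∧ GoodT a b n c D')) ∧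
      (∃ C : ℕ, ∀ᶠ X : ℕ in atTop,
        Nat.card {D : Fin r → ℤ // ∀ j, DC (QE h a b n) pos (P ∪ P0 h hx) (D j) ∧ |D j| ≤ X} ≤
        C * Nat.card {D : Fin r → ℤ // (∀ j, DC (QE h a b n) pos (P ∪ P0 h hx) (D j) ∧
          |D j| ≤ C * X) ∧ GoodT a b n c D ∧ Ind K D}) ∧
      ∀ᶠ X : ℕ in atTop, ((X : ℝ) / Real.log X ^ (1 - ε)) ^ r ≤
        Nat.card {D : Fin r → ℤ // (∀ j, DC (QE h a b n) pos (P ∪ P0 h hx) (D j) ∧
          |D j| ≤ X) ∧ GoodT a b n c D ∧ Ind K D} := by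
  classical
  obtain ⟨ε, hε, hε1, hsh⟩ := share h hx hf hc h0 hcub hθ
  refine ⟨ε / 2, by positivity, by linarith, fun r hr => ?_⟩
  obtain ⟨V, hV⟩ := hsh r
  refine ⟨V, fun pos P hPp => ?_⟩
  obtain ⟨KD, k1, k2, k3, ⟨C, hC⟩, X0, hX0⟩ := hV pos P hPp
  set Cl : ℤ → Prop := fun D => DC (QE h a b n) pos (P ∪ P0 h hx) D with hCl
  let G : ℕ → ℕ := fun X => Nat.card {D : Fin r → ℤ // (∀ j, Cl (D j) ∧ |D j| ≤ X) ∧
    GoodT a b n c D}
  let GI : ℕ → ℕ := fun X => Nat.card {D : Fin r → ℤ // (∀ j, Cl (D j) ∧ |D j| ≤ X) ∧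
    GoodT a b n c D ∧ Ind K D}
  have hfin : ∀ X : ℕ, {D : Fin r → ℤ | ∀ j, Cl (D j) ∧ |D j| ≤ X}.Finite := by
    intro X
    refine Set.Finite.subset (Set.Finite.pi' fun _ : Fin r =>
      Set.finite_Icc (-(X : ℤ)) (X : ℤ)) ?_
    rintro D h2 j
    exact abs_le.1 (h2 j).2
  -- comparison
  have hGI : ∀ X : ℕ, G X ≤ GI X + 2 ^ r * (2 * X + 1) ^ (r - 1) := by
    intro X
    have hd := dep_count (A := QE h a b n) (pos := pos) (P := P ∪ P0 h hx) hr X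
    refine le_trans ?_ (Nat.add_le_add_left hd _)
    set S1 : Set (Fin r → ℤ) := {D | (∀ j, Cl (D j) ∧ |D j| ≤ X) ∧ GoodT a b n c D} with hS1
    set S2 : Set (Fin r → ℤ) := {D | (∀ j, Cl (D j) ∧ |D j| ≤ X) ∧ GoodT a b n c D ∧ Ind K D}
      with hS2
    set S3 : Set (Fin r → ℤ) := {D | (∀ j, Cl (D j) ∧ |D j| ≤ X) ∧
      ∃ S : Finset (Fin r), S.Nonempty ∧ sd S (fun j => (D j).natAbs.primeFactors) = ∅} with hS3
    have hsub : S1 ⊆ S2 ∪ S3 := by
      rintro D ⟨h1, h2⟩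
      by_cases hI : Ind K D
      · exact Or.inl ⟨h1, h2, hI⟩
      · unfold Ind at hI
        push Not at hI
        obtain ⟨S, hS, hsq⟩ := hI
        exact Or.inr ⟨h1, S, hS, sq_sd h (fun j => (h1 j).1) hsq⟩
    have f2 : S2.Finite := (hfin X).subset fun D hD => hD.1
    have f3 : S3.Finite := (hfin X).subset fun D hD => hD.1
    have h1 := Set.ncard_le_ncard hsub (f2.union f3)
    have h2 := Set.ncard_union_le S2 S3
    rw [← Nat.card_coe_set_eq, ← Nat.card_coe_set_eq] at h1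
    rw [← Nat.card_coe_set_eq, ← Nat.card_coe_set_eq, ← Nat.card_coe_set_eq] at h2
    exact h1.trans h2
  have hmono : ∀ X Y : ℕ, X ≤ Y → GI X ≤ GI Y := by
    intro X Y hXY
    have hf : Finite {D : Fin r → ℤ // (∀ j, Cl (D j) ∧ |D j| ≤ Y) ∧ GoodT a b n c D ∧ Ind K D} :=
      (hfin Y).subset fun D hD => hD.1
    refine Nat.card_le_card_of_injective (fun D => (⟨D.1, fun j => ⟨(D.2.1 j).1,
      (D.2.1 j).2.trans (by exact_mod_cast hXY)⟩, D.2.2⟩ :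
      {D : Fin r → ℤ // (∀ j, Cl (D j) ∧ |D j| ≤ Y) ∧ GoodT a b n c D ∧ Ind K D})) ?_
    intro D D' hDD
    exact Subtype.ext (congrArg (fun x => x.1) hDD)
  refine ⟨⟨KD, k1, k2, k3⟩, ?_, ?_⟩
  · refine ⟨2 * C, ?_⟩
    have hs := small hr hε hε1 (A := 2 * (C + 1) * 2 ^ r) (B := 2 * C) (by positivity)
      (by positivity)
    filter_upwards [hs, eventually_ge_atTop X0] with X h1 h2
    have h3 := hX0 X h2
    have h4 := hC X
    set N : ℕ := Nat.card {D : Fin r → ℤ // ∀ j, Cl (D j) ∧ |D j| ≤ X} with hN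
    have h5 : (Nat.card {D : Fin r → ℤ // (∀ j, Cl (D j) ∧ |D j| ≤ X) ∧ GoodT a b n c D} : ℕ) ≤
        N := by
      have hf : Finite {D : Fin r → ℤ // ∀ j, Cl (D j) ∧ |D j| ≤ X} := hfin X
      refine Nat.card_le_card_of_injective (fun D => (⟨D.1, D.2.1⟩ :
        {D : Fin r → ℤ // ∀ j, Cl (D j) ∧ |D j| ≤ X})) ?_
      intro D D' hDD
      exact Subtype.ext (congrArg (fun x => x.1) hDD)
    have h6 : N ≤ C * G (C * X) := by
      refine h4.trans (le_of_eq ?_)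
      have e : ((C * X : ℕ) : ℤ) = (C : ℤ) * X := by push_cast; rfl
      show C * _ = C * Nat.card {D : Fin r → ℤ // (∀ j, Cl (D j) ∧ |D j| ≤ ((C * X : ℕ) : ℤ)) ∧
        GoodT a b n c D}
      rw [e]
    have h7 : N ≤ C * (GI (C * X) + 2 ^ r * (2 * (C * X) + 1) ^ (r - 1)) :=
      h6.trans (Nat.mul_le_mul_left _ (hGI _))
    have h8 : (2 * (C * (2 ^ r * (2 * (C * X) + 1) ^ (r - 1))) : ℝ) ≤ N := by
      refine le_trans ?_ (h1.trans (h3.trans (by exact_mod_cast h5)))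
      have h9 : (0 : ℝ) ≤ (2 * C * X + 1) ^ (r - 1) := by positivity
      have h10 : (0 : ℝ) ≤ 2 ^ r := by positivity
      have e : (2 * (C * (2 ^ r * (2 * (C * X) + 1) ^ (r - 1))) : ℝ) =
          2 * C * 2 ^ r * (2 * C * X + 1) ^ (r - 1) := by
        rw [show (2 * (C * X) + 1 : ℝ) = 2 * C * X + 1 by ring]
        ring
      rw [e]
      have h11 : (2 * C * 2 ^ r : ℝ) ≤ 2 * (C + 1) * 2 ^ r := by nlinarith
      exact mul_le_mul_of_nonneg_right h11 h9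
    have h9 : 2 * (C * (2 ^ r * (2 * (C * X) + 1) ^ (r - 1))) ≤ N := by exact_mod_cast h8
    have h10 : N ≤ 2 * C * GI (C * X) := by
      have h11 : C * (GI (C * X) + 2 ^ r * (2 * (C * X) + 1) ^ (r - 1)) = C * GI (C * X) +
          C * (2 ^ r * (2 * (C * X) + 1) ^ (r - 1)) := Nat.mul_add _ _ _
      rw [h11] at h7
      have h12 : 2 * C * GI (C * X) = 2 * (C * GI (C * X)) := Nat.mul_assoc _ _ _
      rw [h12]
      omega
    refine h10.trans (Nat.mul_le_mul_left _ ?_)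
    refine (hmono (C * X) (2 * C * X) ?_).trans (le_of_eq ?_)
    · exact Nat.mul_le_mul_right _ (by omega)
    · have e : ((2 * C * X : ℕ) : ℤ) = ((2 * C : ℕ) : ℤ) * X := by push_cast; rfl
      show Nat.card {D : Fin r → ℤ // (∀ j, Cl (D j) ∧ |D j| ≤ ((2 * C * X : ℕ) : ℤ)) ∧
        GoodT a b n c D ∧ Ind K D} = _
      rw [e]
  · have hlog : Tendsto (fun X : ℕ => Real.log X) atTop atTop :=
      Real.tendsto_log_atTop.comp tendsto_natCast_atTop_atTop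
    have hs := small hr hε hε1 (A := 2 * 2 ^ r) (B := 2) (by positivity) (by positivity)
    have e1 : ∀ᶠ Y : ℕ in atTop, (2 : ℝ) ≤ (Real.log Y) ^ (ε / 2) :=
      ((tendsto_rpow_atTop (by positivity : 0 < ε / 2)).comp hlog).eventually_ge_atTop _
    filter_upwards [hs, eventually_ge_atTop X0, e1, hlog.eventually_ge_atTop 1] with X h1 h2 h3 h4
    have h5 := hX0 X h2
    have h6 : (G X : ℝ) ≤ GI X + 2 ^ r * (2 * X + 1) ^ (r - 1) := by exact_mod_cast hGI X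
    have hL : 0 < Real.log X := by linarith
    set u : ℝ := Real.log X ^ (1 - ε) with hu
    set t : ℝ := Real.log X ^ (ε / 2) with ht
    have hu0 : 0 < u := Real.rpow_pos_of_pos hL _
    have ht0 : 0 < t := Real.rpow_pos_of_pos hL _
    have hut : Real.log X ^ (1 - ε / 2) = u * t := by
      rw [hu, ht, ← Real.rpow_add hL]
      congr 1
      ring
    have h7 : (((X : ℝ) / u) ^ r) ≤ G X := h5
    have h8 : ((X : ℝ) / (u * t)) ^ r ≤ ((X : ℝ) / u) ^ r / 2 := by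
      rw [← div_div, div_pow _ t]
      refine div_le_div_of_nonneg_left (by positivity) two_pos ?_
      calc (2 : ℝ) ≤ t := h3
        _ = t ^ 1 := (pow_one t).symm
        _ ≤ t ^ r := pow_le_pow_right₀ (by linarith) hr
    rw [hut]
    show ((X : ℝ) / (u * t)) ^ r ≤ (GI X : ℝ)
    have h9 : (2 : ℝ) * (2 ^ r * (2 * X + 1) ^ (r - 1)) ≤ ((X : ℝ) / u) ^ r := by
      refine le_trans (le_of_eq ?_) h1
      ring
    linarith

end Pool.Agent.U81.MP
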