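import Pool.Agent.U81.MP.Main

/-!
Tuples which are dependent modulo squares.
-/

set_option autoImplicit false

namespace Pool.Agent.U81.MP

open NumberField IsDedekindDomain Filter Topology WithZero
open Pool.Agent.K4H15.BW (NVD efD not_sq_exp)
open Pool.Agent.K4H55.BI (IQ BF)
open Pool.Agent.K4H55.BD (pv Cub QE P0 mem_P0 exists_over disc_mem)
open Pool.Agent.K4H55.AB (GT DC pf_disc disc_pf disc_ne disc_symm quant)
open Pool.Agent.Y18.BSD (dd disc)
open scoped symmDiff

variable {K : Type} [Field K] [NumberField K] {σ : K →+* ℂ} {δ : K} {a b n : 𝓞 K}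
  {c : Ideal (𝓞 K) → ℂ} {A : Set ℕ} {pos : Prop} {P : Finset ℕ} {r : ℕ} {D : Fin r → ℤ}

/-- the product and its squarefree part -/
lemma prod_ds (hD : ∀ j, DC A pos P (D j)) (S : Finset (Fin r)) :
    ∃ g : ℤ, g ≠ 0 ∧ DS D S * g ^ 2 = ∏ j ∈ S, D j := by
  classical
  induction S using Finset.induction_on with
  | empty =>
    refine ⟨1, one_ne_zero, ?_⟩
    unfold DS
    rw [sd_empty]
    simp [disc]
  | insert j S hj ih =>
    obtain ⟨g, hg, h1⟩ := ih
    refine ⟨disc ((D j).natAbs.primeFactors ∩ sd S fun j => (D j).natAbs.primeFactors) * g,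
      mul_ne_zero (disc_ne fun q hq => Nat.prime_of_mem_primeFactors (Finset.mem_inter.1 hq).1) hg,
      ?_⟩
    have h2 := disc_symm (D j).natAbs.primeFactors (sd S fun j => (D j).natAbs.primeFactors)
    rw [disc_pf (hD j).sqf (hD j).one] at h2
    have h3 : DS D (insert j S) = disc ((D j).natAbs.primeFactors ∆
        sd S fun j => (D j).natAbs.primeFactors) := by
      unfold DS
      rw [sd_insert hj]
    rw [h3, Finset.prod_insert hj, ← h1]
    have h4 : DS D S = disc (sd S fun j => (D j).natAbs.primeFactors) := rfl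
    rw [h4]
    linear_combination g ^ 2 * h2

/-- if the product is a square then its squarefree part is one -/
lemma sq_sd (h : IQ K σ δ) (hD : ∀ j, DC (QE h a b n) pos P (D j)) {S : Finset (Fin r)}
    (hsq : IsSquare (∏ j ∈ S, ((D j : ℤ) : K))) :
    sd S (fun j => (D j).natAbs.primeFactors) = ∅ := by
  classical
  by_contra hne
  obtain ⟨q, hq⟩ := Finset.nonempty_iff_ne_empty.2 hne
  obtain ⟨g, hg, h1⟩ := prod_ds hD S
  have hq1 := (qe_two h q ((sd_gt (qe_two h) (fun j => (hD j).gt) S).adm q hq)).1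
  obtain ⟨v, hv⟩ := exists_over h hq1
  have hmem : ((DS D S : ℤ) : 𝓞 K) ∈ v.asIdeal := disc_mem.2 ⟨q, hq, hv⟩
  have hval := (dc_val h (DS_dc (qe_two h) hD S) hmem).1
  refine not_sq_exp hval ?_
  obtain ⟨z, hz⟩ := hsq
  have h2 : ((DS D S : ℤ) : K) * (g : K) ^ 2 = z * z := by
    rw [← hz]
    exact_mod_cast congrArg (Int.cast (R := K)) h1
  have hgK : (g : K) ≠ 0 := by exact_mod_cast hg
  refine ⟨z / g, ?_⟩
  have e : ((((DS D S : ℤ) : 𝓞 K)) : K) = ((DS D S : ℤ) : K) := by simp
  rw [e]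
  field_simp
  linear_combination h2

/-- **the number of the dependent tuples** -/
theorem dep_count (hr : 1 ≤ r) (X : ℕ) :
    Nat.card {D : Fin r → ℤ // (∀ j, DC A pos P (D j) ∧ |D j| ≤ X) ∧
      ∃ S : Finset (Fin r), S.Nonempty ∧ sd S (fun j => (D j).natAbs.primeFactors) = ∅} ≤
      2 ^ r * (2 * X + 1) ^ (r - 1) := by
  classical
  have hj0 : ∃ j0 : Finset (Fin r) → Fin r, ∀ S : Finset (Fin r), S.Nonempty → j0 S ∈ S := by
    refine ⟨fun S => if h : S.Nonempty then h.choose else ⟨0, hr⟩, fun S hS => ?_⟩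
    simp only [dif_pos hS]
    exact hS.choose_spec
  obtain ⟨j0, hj0⟩ := hj0
  let Y := Finset.Icc (-(X : ℤ)) X
  let T := {D : Fin r → ℤ // (∀ j, DC A pos P (D j) ∧ |D j| ≤ X) ∧
      ∃ S : Finset (Fin r), S.Nonempty ∧ sd S (fun j => (D j).natAbs.primeFactors) = ∅}
  choose s hs1 hs2 using fun D : T => D.2.2
  let φ : T → (S : Finset (Fin r)) × ({j : Fin r // j ≠ j0 S} → Y) := fun D =>
    ⟨s D, fun j => ⟨D.1 j.1, Finset.mem_Icc.2 (abs_le.1 (D.2.1 j.1).2)⟩⟩
  have key : ∀ (D : T), (D.1 (j0 (s D))).natAbs.primeFactors =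
      sd ((s D).erase (j0 (s D))) (fun j => (D.1 j).natAbs.primeFactors) := by
    intro D
    have h1 := hs2 D
    rw [← Finset.insert_erase (hj0 _ (hs1 D)), sd_insert (Finset.notMem_erase _ _)] at h1
    exact symmDiff_eq_bot.1 h1
  have hφ : Function.Injective φ := by
    intro D D' hDD
    have h1 : s D = s D' := congrArg (fun x => x.1) hDD
    have h2 : ∀ j, j ≠ j0 (s D) → D.1 j = D'.1 j := by
      intro j hj
      have h3 : ∀ (S S' : Finset (Fin r)) (f : {j : Fin r // j ≠ j0 S} → Y)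
          (f' : {j : Fin r // j ≠ j0 S'} → Y),
          (⟨S, f⟩ : (S : Finset (Fin r)) × ({j : Fin r // j ≠ j0 S} → Y)) = ⟨S', f'⟩ →
          ∀ (hj : j ≠ j0 S) (hj' : j ≠ j0 S'), (f ⟨j, hj⟩ : ℤ) = f' ⟨j, hj'⟩ := by
        rintro S S' f f' h4 hj hj'
        cases h4
        rfl
      exact h3 _ _ _ _ hDD hj (by rw [← h1]; exact hj)
    apply Subtype.ext
    funext j
    by_cases hj : j = j0 (s D)
    · have e1 : (D.1 j).natAbs.primeFactors = (D'.1 j).natAbs.primeFactors := by
        rw [hj, key D]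
        rw [h1, key D', ← h1]
        unfold sd
        have h5 : ∀ j ∈ (s D).erase (j0 (s D)), (D.1 j).natAbs.primeFactors =
            (D'.1 j).natAbs.primeFactors := fun j hj => by
          rw [h2 j (Finset.ne_of_mem_erase hj)]
        ext q
        simp only [Finset.mem_filter, Finset.mem_biUnion]
        refine and_congr (exists_congr fun j => and_congr_right fun hj => by rw [h5 j hj]) ?_
        rw [Finset.filter_congr fun j hj => by rw [h5 j hj]]
      have h6 := congrArg disc e1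
      rwa [disc_pf (D.2.1 j).1.sqf (D.2.1 j).1.one, disc_pf (D'.2.1 j).1.sqf (D'.2.1 j).1.one] at h6
    · exact h2 j hj
  have h1 := Nat.card_le_card_of_injective φ hφ
  refine h1.trans (le_of_eq ?_)
  rw [Nat.card_sigma]
  have h2 : ∀ S : Finset (Fin r), Nat.card ({j : Fin r // j ≠ j0 S} → Y) = (2 * X + 1) ^ (r - 1) := by
    intro S
    rw [Nat.card_fun, Nat.card_eq_fintype_card, Nat.card_eq_fintype_card, Fintype.card_coe,
      Int.card_Icc, Fintype.card_subtype_compl, Fintype.card_fin, Fintype.card_subtype_eq]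
    congr 1
    omega
  rw [Finset.sum_congr rfl fun S _ => h2 S, Finset.sum_const, Finset.card_univ, Fintype.card_finset,
    Fintype.card_fin, smul_eq_mul]

end Pool.Agent.U81.MP
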