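import Pool.Agent.U81.MP.Tup

/-!
Tuples of twists by rational discriminants.
-/

set_option autoImplicit false

namespace Pool.Agent.U81.MP

open NumberField IsDedekindDomain ComplexConjugate
open Pool.Agent.K4H55.BI (IQ BF NVT Adm sym chiT gen gen_span gen_dvd gen_prime gen_na gen_cov gen_inj
  chi_gen chi_mul chi_symmDiff fam_of ordK Fam sp bt fv corr nvt_iff AdS AdB Ok)
open Pool.Agent.K4H55.BD
open Pool.Agent.Y18.BSD (dd disc dd_ne_zero)
open scoped symmDiff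

variable {K : Type} [Field K] [NumberField K] {σ : K →+* ℂ} {δ : K}

lemma gt_empty {A : Set ℕ} {pos : Prop} {P : Finset ℕ} : K4H55.AB.GT A pos P ∅ :=
  ⟨by simp, fun _ => by simp [disc], fun p _ => by simp [dd]⟩

lemma sd_gt {A : Set ℕ} {pos : Prop} {P : Finset ℕ} (hA : ∀ q ∈ A, q.Prime ∧ q ≠ 2) {ι : Type}
    {T : ι → Finset ℕ} (hT : ∀ j, K4H55.AB.GT A pos P (T j)) (S : Finset ι) :
    K4H55.AB.GT A pos P (sd S T) := by
  classical
  induction S using Finset.induction_on with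
  | empty => rw [sd_empty]; exact gt_empty
  | insert j S hj ih =>
    rw [sd_insert hj]
    exact (hT j).symm hA ih

open Classical in
lemma sd_cT [hP : IsPrincipalIdealRing (𝓞 K)] {A : Set ℕ} {pos : Prop} {P : Finset ℕ}
    (hA : ∀ q ∈ A, q.Prime ∧ q ≠ 2) {ι : Type}
    {T : ι → Finset ℕ} (hT : ∀ j, K4H55.AB.GT A pos P (T j)) (S : Finset ι) :
    ∏ j ∈ S, K4H55.BI.cT ((pl K (T j)).image gen) = K4H55.BI.cT ((pl K (sd S T)).image gen) := by
  have hgp : ∀ {T : Finset ℕ}, K4H55.AB.GT A pos P T → ∀ q ∈ T, q.Prime := fun hT q hq =>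
    (hA q (hT.adm q hq)).1
  induction S using Finset.induction_on with
  | empty =>
    have : pl K ∅ = ∅ := by unfold pl; simp
    rw [sd_empty, this, Finset.image_empty, K4H55.BI.cT_empty, Finset.prod_empty]
  | insert j S hj ih =>
    rw [Finset.prod_insert hj, ih, sd_insert hj, K4H55.BI.cT_mul, pl_symm (hgp (hT j))
      (hgp (sd_gt hA hT S)), Finset.image_symmDiff _ _ gen_inj]

/-- **Corrections for tuples.** -/
theorem main_q_tup (h : IQ K σ δ) [hP : IsPrincipalIdealRing (𝓞 K)] {J : Type} [Fintype J]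
    (n : J → 𝓞 K) (c : J → Ideal (𝓞 K) → ℂ) (hf : ∀ i, BF σ δ (n i) (c i))
    (h0 : ∀ i, NVT (n i) (c i) ∅) (lam : Ideal (integralClosure ℤ ℂ)) (hlam : lam.IsPrime)
    (hmem : (2 : integralClosure ℤ ℂ) ∈ lam) (r : ℕ) :
    ∃ V : ℕ, ∀ (A : Set ℕ), A ⊆ QA h n c lam → ∀ (pos : Prop) (P : Finset ℕ),
      ∃ KK : Finset (Fin r → Finset ℕ), KK.card ≤ V ∧
      (∀ k ∈ KK, ∀ j, K4H55.AB.GT A pos P (k j)) ∧
      ∀ T : Fin r → Finset ℕ, (∀ j, K4H55.AB.GT A pos P (T j)) →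
        ∃ k ∈ KK, ∀ (S : Finset (Fin r)) (i : J),
          NVT (n i) (c i) (pl K (sd S fun j => T j ∆ k j)) := by
  classical
  set D := ordK h with hD
  choose C w κ κW hN using fun i => (hf i).newf h
  have hMG := fun i => (hN i).mg
  have hb0 : ∀ i, bt D (fv D fun x => c i (Ideal.span {x})) ∅ ≠ 0 := by
    intro i
    have h1 := (nvt_iff h (hf i) (T := ∅) (by
      rw [Finset.image_empty]
      exact ⟨fun p hp => absurd hp (Finset.notMem_empty p), fun p hp =>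
        absurd hp (Finset.notMem_empty p), fun p hp => absurd hp (Finset.notMem_empty p)⟩)
      (fun u _ => by unfold chiT; simp) (fun v hv => absurd hv (Finset.notMem_empty v))).1 (h0 i)
    rwa [Finset.image_empty] at h1
  obtain ⟨V, hV⟩ := corr_tup hMG hb0 lam hlam hmem r
  refine ⟨2 ^ V, fun A hA pos P => ?_⟩
  have hAp : ∀ q ∈ A, q.Prime ∧ q ≠ 2 := fun q hq => ⟨(hA hq).1.pr, (hA hq).1.odd⟩
  have hgp : ∀ {T : Finset ℕ}, K4H55.AB.GT A pos P T → ∀ q ∈ T, q.Prime := fun hT q hq =>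
    (hAp q (hT.adm q hq)).1
  set A' : Set (𝓞 K) := gen '' {v | ∃ q ∈ A, (q : 𝓞 K) ∈ v.asIdeal} with hA'
  have hin : ∀ v : HeightOneSpectrum (𝓞 K), (∃ q ∈ A, (q : 𝓞 K) ∈ v.asIdeal) →
      v ∈ Adm n c lam := by
    rintro v ⟨q, hq, hv⟩
    exact (hA hq).2 v hv
  let H : Subgroup (𝓞 K → ℤˣ) :=
    { carrier := {e | ∃ T, K4H55.AB.GT A pos P T ∧ e = K4H55.BI.cT ((pl K T).image gen)}
      mul_mem' := by
        rintro _ _ ⟨T, hT, rfl⟩ ⟨T', hT', rfl⟩
        refine ⟨T ∆ T', hT.symm hAp hT', ?_⟩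
        rw [K4H55.BI.cT_mul, pl_symm (hgp hT) (hgp hT'), Finset.image_symmDiff _ _ gen_inj]
      one_mem' := by
        refine ⟨∅, gt_empty, ?_⟩
        have : pl K ∅ = ∅ := by unfold pl; simp
        rw [this, Finset.image_empty, K4H55.BI.cT_empty]
      inv_mem' := by
        rintro _ ⟨T, hT, rfl⟩
        refine ⟨T, hT, ?_⟩
        funext p
        rw [Pi.inv_apply, Int.units_inv_eq_self] }
  have hOk : Ok H A' := by
    refine ⟨?_, ?_⟩
    · rintro _ ⟨T, -, rfl⟩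
      exact K4H55.BI.cT_fin _
    · rintro _ ⟨T, hT, rfl⟩ p hp
      obtain ⟨v, hv, rfl⟩ := Finset.mem_image.1 ((K4H55.BI.cT_ne p).1 hp)
      obtain ⟨q, hq, hqv⟩ := (mem_pl (hgp hT)).1 hv
      exact ⟨v, ⟨q, hT.adm q hq, hqv⟩, rfl⟩
  have hAS : ∀ i, AdS (n i) A' := by
    intro i
    refine ⟨?_, ?_, ?_, ?_⟩
    · rintro p ⟨v, hv, rfl⟩
      exact gen_prime v
    · rintro p ⟨v, hv, rfl⟩ hd
      exact (hin v hv).1 (gen_dvd.1 hd)
    · rintro p ⟨v, hv, rfl⟩ p' ⟨v', hv', rfl⟩ hd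
      rw [gen_na hd]
    · rintro p ⟨v, hv, rfl⟩ hd
      exact ((hin v hv).2 i).1 (gen_dvd.1 hd)
  obtain ⟨K1, hK1, hK2, hK3⟩ := hV A' hAS (by
    rintro i q ⟨v, hv, rfl⟩
    refine ⟨gen_prime v, fun hd => ((hin v hv).2 i).1 (gen_dvd.1 hd), ?_⟩
    simp only [gen_span]
    exact ((hin v hv).2 i).2) H hOk
  have hK2' : ∀ e ∈ K1, ∃ t : Fin r → Finset ℕ, ∀ j, K4H55.AB.GT A pos P (t j) ∧
      e j = K4H55.BI.cT ((pl K (t j)).image gen) := fun e he => by
    choose t ht using hK2 e he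
    exact ⟨t, ht⟩
  choose! t ht using hK2'
  refine ⟨K1.image t, Finset.card_image_le.trans hK1, ?_, ?_⟩
  · intro k hk j
    obtain ⟨e, he, rfl⟩ := Finset.mem_image.1 hk
    exact (ht e he j).1
  · intro T hT
    obtain ⟨e, he, h4⟩ := hK3 (fun j => K4H55.BI.cT ((pl K (T j)).image gen))
      fun j => ⟨T j, hT j, rfl⟩
    refine ⟨t e, Finset.mem_image_of_mem t he, fun S i => ?_⟩
    have hte : ∀ j, K4H55.AB.GT A pos P (t e j) := fun j => (ht e he j).1
    have hTt : ∀ j, K4H55.AB.GT A pos P (T j ∆ t e j) := fun j => (hT j).symm hAp (hte j)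
    have h7 := h4 S i
    have h8 : ∏ j ∈ S, K4H55.BI.cT ((pl K (T j)).image gen) * e j =
        K4H55.BI.cT ((pl K (sd S fun j => T j ∆ t e j)).image gen) := by
      rw [← sd_cT hAp hTt S]
      refine Finset.prod_congr rfl fun j _ => ?_
      rw [(ht e he j).2, K4H55.BI.cT_mul, ← Finset.image_symmDiff _ _ gen_inj,
        ← pl_symm (hgp (hT j)) (hgp (hte j))]
    have h7' : bt D (fv D fun x => c i (Ideal.span {x}))
        (sp (∏ j ∈ S, K4H55.BI.cT ((pl K (T j)).image gen) * e j)) ≠ 0 := h7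
    rw [h8, K4H55.BI.sp_cT] at h7'
    have hTs := sd_gt hAp hTt S
    have hspl : ∀ q ∈ sd S (fun j => T j ∆ t e j), Spl h q := fun q hq => (hA (hTs.adm q hq)).1
    have hin2 : ∀ v ∈ pl K (sd S fun j => T j ∆ t e j), v ∈ Adm n c lam := by
      intro v hv
      obtain ⟨q, hq, hqv⟩ := (mem_pl (hgp hTs)).1 hv
      exact hin v ⟨q, hTs.adm q hq, hqv⟩
    rw [nvt_iff h (hf i) (fam_of (A := Adm n c lam) (fun v hv => hv.1) hin2)
      (fun u hu => chiT_unit h hspl hu) fun v hv => ((hin2 v hv).2 i).1]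
    exact h7'

end Pool.Agent.U81.MP
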