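import Pool.Agent.U81.MP.Lay

/-!
The positive share.
-/

set_option autoImplicit false

namespace Pool.Agent.U81.MP

open NumberField IsDedekindDomain Filter Topology
open Pool.Agent.K4H15.BW (NVD efD)
open Pool.Agent.K4H55.BI (IQ BF NVT efac)
open Pool.Agent.K4H55.BD (pv Cub QE densK P0 mem_P0 NVE ef ef_eq QE_sub no_root pl)
open Pool.Agent.K4H55.AB (GT DC pf_disc)
open Pool.Agent.Y18.BSD (dd disc)
open scoped symmDiff

variable {K : Type} [Field K] [NumberField K] {σ : K →+* ℂ} {δ : K} {a b n : 𝓞 K}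
  {c : Ideal (𝓞 K) → ℂ} {L : Type} [Field L] [NumberField L] [Algebra K L] {θ : L}

/-- the `L`-functions of all the twists of the tuple do not vanish -/
def GoodT (a b n : 𝓞 K) (c : Ideal (𝓞 K) → ℂ) {r : ℕ} (D : Fin r → ℤ) : Prop :=
  ∀ S, NVE a b n c (DS D S)

theorem share (h : IQ K σ δ) [hP : IsPrincipalIdealRing (𝓞 K)]
    (hx : 2 * (4 * a ^ 3 + 27 * b ^ 2) ≠ 0) (hf : BF σ δ n c)
    (hc : ∀ v : HeightOneSpectrum (𝓞 K), 2 * (4 * a ^ 3 + 27 * b ^ 2) ∉ v.asIdeal →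
      n ∉ v.asIdeal ∧ c v.asIdeal = (Ideal.absNorm v.asIdeal : ℂ) - pv a b v)
    (h0 : NVD a b n c 1) (hcub : Cub K θ)
    (hθ : θ ^ 3 + algebraMap K L a * θ + algebraMap K L b = 0) :
    ∃ ε : ℝ, 0 < ε ∧ ε < 1 ∧ ∀ r : ℕ, ∃ V : ℕ, ∀ (pos : Prop) (P : Finset ℕ), (∀ p ∈ P, p.Prime) →
      ∃ KD : Finset (Fin r → ℤ), KD.card ≤ V ∧
      (∀ k ∈ KD, ∀ j, DC (QE h a b n) pos (P ∪ P0 h hx) (k j)) ∧
      (∀ D : Fin r → ℤ, (∀ j, DC (QE h a b n) pos (P ∪ P0 h hx) (D j)) →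
        ∃ k ∈ KD, ∃ g D' : Fin r → ℤ, (∀ j, g j ≠ 0 ∧ D' j * g j ^ 2 = D j * k j ∧
          DC (QE h a b n) pos (P ∪ P0 h hx) (D' j)) ∧ GoodT a b n c D') ∧
      (∃ C : ℕ, ∀ X : ℕ,
        Nat.card {D : Fin r → ℤ // ∀ j, DC (QE h a b n) pos (P ∪ P0 h hx) (D j) ∧ |D j| ≤ X} ≤
        C * Nat.card {D : Fin r → ℤ // (∀ j, DC (QE h a b n) pos (P ∪ P0 h hx) (D j) ∧
          |D j| ≤ C * X) ∧ GoodT a b n c D}) ∧
      ∃ X0 : ℕ, ∀ X : ℕ, X0 ≤ X → ((X : ℝ) / Real.log X ^ (1 - ε)) ^ r ≤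
        Nat.card {D : Fin r → ℤ // (∀ j, DC (QE h a b n) pos (P ∪ P0 h hx) (D j) ∧
          |D j| ≤ X) ∧ GoodT a b n c D} := by
  classical
  have hA : ∀ q ∈ QE h a b n, q.Prime ∧ q ≠ 2 := qe_two h
  have hΔ : 4 * a ^ 3 + 27 * b ^ 2 ≠ 0 := fun h1 => hx (by rw [h1, mul_zero])
  obtain ⟨lam, hlam, h2, hint⟩ := Pool.Agent.Y18.LP.exists_lam Nat.prime_two
  have h2' : (2 : integralClosure ℤ ℂ) ∈ lam := by exact_mod_cast h2
  have hpl0 : pl K ∅ = ∅ := by unfold pl; simp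
  have hbase : NVT n c ∅ := by
    obtain ⟨G, h3, h4, h5⟩ := h0
    refine ⟨G, h3, fun s hs => ?_, h5⟩
    have h6 := h4 s hs
    have h7 : efD a b n c 1 s = efac n c ∅ s := by
      funext v
      have h8 := ef_eq h (a := a) (b := b) (n := n) (c := c) (T := ∅)
        (fun q hq => absurd hq (Finset.notMem_empty q)) (fun p _ _ => by unfold dd; simp) hc s v
      rw [hpl0] at h8
      rw [← h8]
      unfold disc
      rw [Finset.prod_empty]
      unfold efD ef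
      rw [Int.cast_one]
    rwa [h7] at h6
  obtain ⟨d, hd, hdens⟩ := densK h hΔ hf.n0 (no_root hcub hθ)
  obtain ⟨ε, hε, hε1, hq⟩ := quant_tup hA hd hdens
  refine ⟨ε, hε, hε1, fun r => ?_⟩
  obtain ⟨V, hV⟩ := main_q_tup h (fun _ : Unit => n) (fun _ => c) (fun _ => hf) (fun _ => hbase)
    lam hlam h2' r
  refine ⟨V, fun pos P hP => ?_⟩
  obtain ⟨KK, hK1, hK2, hK3⟩ := hV (QE h a b n) (QE_sub h hc fun m hm => by exact_mod_cast hint m hm)
    pos (P ∪ P0 h hx)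
  obtain ⟨KD, h4, h5, h6, C, h7⟩ := dlevel_tup hA (GoodT a b n c) KK hK2 (fun T hT => by
    obtain ⟨k, hk, h4⟩ := hK3 T hT
    refine ⟨k, hk, fun S => ?_⟩
    obtain ⟨G, h5, h6, h7⟩ := h4 S ()
    have hTk : ∀ j, GT (QE h a b n) pos (P ∪ P0 h hx) (T j ∆ k j) := fun j =>
      (hT j).symm hA (hK2 k hk j)
    have e0 : DS (fun j => disc (T j ∆ k j)) S = disc (sd S fun j => T j ∆ k j) := by
      unfold DS
      congr 2
      funext j
      exact pf_disc fun q hq => (hA q ((hTk j).adm q hq)).1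
    rw [e0]
    refine ⟨G, h5, fun s hs => ?_, h7⟩
    have h8 := h6 s hs
    have hS := sd_gt hA hTk S
    have h9 : ef a b n c (disc (sd S fun j => T j ∆ k j)) s =
        efac n c (pl K (sd S fun j => T j ∆ k j)) s := by
      funext v
      refine ef_eq h (fun q hq => (hS.adm q hq).1) (fun p hp hpv => ?_) hc s v
      exact hS.loc p (Finset.mem_union_right _ ((mem_P0 h hx).2 ⟨hp, hpv⟩))
    rw [h9]
    exact h8)
  refine ⟨KD, h4.trans hK1, h5, h6, ⟨C, h7⟩, ?_⟩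
  refine hq pos (P ∪ P0 h hx) (fun p hp => ?_) r (GoodT a b n c) C h7
  rcases Finset.mem_union.1 hp with h8 | h8
  · exact hP p h8
  · exact ((mem_P0 h hx).1 h8).1

end Pool.Agent.U81.MP
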