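import Pool.Agent.K4H55.BD.Pl
import Pool.Agent.Y18.LP.TupA

/-!
Corrections for tuples of twists.
-/

set_option autoImplicit false

namespace Pool.Agent.U81.MP

open Finset Filter Topology Pool.Agent.Y18.LP
open Pool.Agent.K4H55.BI
open scoped symmDiff

section main

variable {O : Type} [CommRing O] [IsDomain O] {D : Pool.Agent.K4H55.BI.Ord O} {J : Type} [Fintype J] {n : J → O}
  {c : J → O → ℂ} {C : J → ℝ} {w : J → ℂ} {M : J → Submodule ℤ ℂ}

/-- **a small set of corrections for tuples** -/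
theorem corr_tup (hMG : ∀ i, MG D (n i) (c i) (C i) (w i) (M i))
    (h0 : ∀ i, bt D (fv D (c i)) ∅ ≠ 0) (lam : Ideal (integralClosure ℤ ℂ)) (hlam : lam.IsPrime)
    (hmem : (2 : integralClosure ℤ ℂ) ∈ lam) (r : ℕ) :
    ∃ V : ℕ, ∀ A : Set O, (∀ i, AdS (n i) A) → (∀ i, ∀ q ∈ A, q ∈ AdB (n i) (c i) lam) →
      ∀ H : Subgroup (O → ℤˣ), Ok H A →
      ∃ K : Finset (Fin r → O → ℤˣ), K.card ≤ 2 ^ V ∧ (∀ k ∈ K, ∀ j, k j ∈ H) ∧
        ∀ e : Fin r → O → ℤˣ, (∀ j, e j ∈ H) → ∃ k ∈ K, ∀ S : Finset (Fin r), ∀ i,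
          bt D (fv D (c i)) (sp (∏ j ∈ S, e j * k j)) ≠ 0 := by
  classical
  obtain ⟨R, hR0, P, al, hP, hP2, hal⟩ := setup hMG h0 lam hlam hmem
  have hRe : ∀ z : ℂ, z ^ 2 = 1 → z ∈ R := fun z hz => by
    rcases mul_self_eq_one_iff.1 ((sq _).symm.trans hz) with h | h
    · rw [h]; exact R.one_mem
    · rw [h]; exact R.neg_mem R.one_mem
  have hP1 : ∀ z : R, (z : ℂ) ^ 2 = 1 → 1 - z ∈ P := fun z hz => by
    rcases mul_self_eq_one_iff.1 ((sq _).symm.trans hz) with h | h
    · have : z = 1 := Subtype.ext h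
      rw [this, sub_self]
      exact P.zero_mem
    · have : z = -1 := Subtype.ext h
      rw [this, sub_neg_eq_add, one_add_one_eq_two]
      exact hP2
  have hmem1 : ∀ i, bt D (fv D (c i)) ∅ ∈ Submodule.span R (VV D (n i) (c i)) := by
    intro i
    have hfam : Fam (∅ : Finset O) := ⟨by simp, by simp, by simp⟩
    exact bt_mem hfam (by simp) 1 (by simp) sp_one
  have hx : ∏ x : J × (Fin r → Fin 2), bt D (fv D (c x.1)) ∅ ∈
      ∏ x : J × (Fin r → Fin 2), Submodule.span R (VV D (n x.1) (c x.1)) :=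
    prod_mem' univ _ _ fun i _ => hmem1 i.1
  obtain ⟨V, hV⟩ := krull hP.ne_top (fg_prod univ _ fun i _ => span_fg (VV_fg (hMG i.1))) hx
    (Finset.prod_ne_zero_iff.2 fun i _ => h0 i.1)
  refine ⟨V, fun A hA hAl H hH => ?_⟩
  have hg : ∀ i, Good 2 P (Submodule.span R (VV D (n i) (c i)))
      (fun e : H => bt D (fv D (c i)) (sp (e : O → ℤˣ))) := fun i =>
    good (hMG i) (al i) hP.isPrime hP2 hH (hA i) (fun q hq => hal i q (hAl i q hq))
  have hsq : ∀ e ∈ H, e ^ 2 = 1 := by
    intro e _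
    funext p
    rw [Pi.pow_apply, Pi.one_apply]
    exact Int.units_sq _
  obtain ⟨K, hK1, hK2, hK3⟩ := tup_abs (G := O → ℤˣ) hRe (by norm_num) hP hP1 r H hsq
    (fun i => Submodule.span R (VV D (n i) (c i))) (fun i e => bt D (fv D (c i)) (sp e)) hg
    (V := V) (by
      have : ∏ x : J × (Fin r → Fin 2), bt D (fv D (c x.1)) (sp (1 : O → ℤˣ)) =
          ∏ x : J × (Fin r → Fin 2), bt D (fv D (c x.1)) ∅ := by
        rw [sp_one]
      rw [this]
      exact hV)
  refine ⟨K, hK1, hK2, fun e he => ?_⟩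
  obtain ⟨k, hk, h1⟩ := hK3 e he
  refine ⟨k, hk, fun S i => ?_⟩
  have h2 := h1 (fun j => if j ∈ S then 1 else 0) i
  have h3 : ∏ j, (e j * k j) ^ (if j ∈ S then 1 else 0) = ∏ j ∈ S, e j * k j := by
    rw [← Finset.prod_filter_mul_prod_filter_not univ (· ∈ S)]
    rw [Finset.filter_mem_eq_inter, Finset.univ_inter]
    rw [Finset.prod_congr rfl (g := fun j => e j * k j) fun j hj => by rw [if_pos hj, pow_one]]
    rw [Finset.prod_eq_one (s := univ.filter (· ∉ S)) fun j hj => by
      rw [if_neg (Finset.mem_filter.1 hj).2, pow_zero], mul_one]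
  rw [h3] at h2
  exact h2

end main

open Classical in
/-- the symmetric difference of a family of sets -/
noncomputable def sd {α ι : Type} (S : Finset ι) (T : ι → Finset α) : Finset α :=
  (S.biUnion T).filter fun q => Odd (S.filter fun j => q ∈ T j).card

section sd

variable {α ι : Type}

lemma mem_sd {S : Finset ι} {T : ι → Finset α} {q : α} [DecidableEq α] :
    q ∈ sd S T ↔ Odd (S.filter fun j => q ∈ T j).card := by
  unfold sd
  simp only [Finset.mem_filter, Finset.mem_biUnion]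
  constructor
  · rintro ⟨_, h⟩
    convert h
  · intro h
    refine ⟨?_, by convert h⟩
    obtain ⟨j, hj⟩ : (S.filter fun j => q ∈ T j).Nonempty := by
      rw [← Finset.card_pos]
      exact h.pos
    rw [Finset.mem_filter] at hj
    exact ⟨j, hj.1, hj.2⟩

lemma sd_empty (T : ι → Finset α) : sd ∅ T = ∅ := by
  classical
  ext q
  rw [mem_sd]
  simp

lemma sd_insert [DecidableEq α] [DecidableEq ι] {j : ι} {S : Finset ι} (hj : j ∉ S)
    (T : ι → Finset α) : sd (insert j S) T = T j ∆ sd S T := by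
  ext q
  rw [Finset.mem_symmDiff, mem_sd, mem_sd]
  by_cases h : q ∈ T j
  · rw [Finset.filter_insert, if_pos h, Finset.card_insert_of_notMem (fun h1 =>
      hj (Finset.mem_filter.1 h1).1), Nat.odd_add_one]
    tauto
  · rw [Finset.filter_insert, if_neg h]
    tauto

lemma sd_single [DecidableEq α] (j : ι) (T : ι → Finset α) : sd {j} T = T j := by
  classical
  have h := sd_insert (Finset.notMem_empty j) T
  rw [sd_empty] at h
  rw [← insert_empty_eq j, h]
  simp

lemma sd_symm [DecidableEq α] [DecidableEq ι] (S S' : Finset ι) (T : ι → Finset α) :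
    sd (S ∆ S') T = sd S T ∆ sd S' T := by
  ext q
  rw [Finset.mem_symmDiff, mem_sd, mem_sd, mem_sd]
  set A := S.filter fun j => q ∈ T j with hA
  set B := S'.filter fun j => q ∈ T j with hB
  have e1 : (S ∆ S').filter (fun j => q ∈ T j) = (A \ B) ∪ (B \ A) := by
    ext j
    simp only [hA, hB, Finset.mem_filter, Finset.mem_union, Finset.mem_sdiff,
      Finset.mem_symmDiff]
    tauto
  have e2 : Disjoint (A \ B) (B \ A) := by
    rw [Finset.disjoint_left]
    intro j h1 h2
    rw [Finset.mem_sdiff] at h1 h2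
    exact h1.2 h2.1
  rw [e1, Finset.card_union_of_disjoint e2]
  have h1 := Finset.card_sdiff_add_card_inter A B
  have h2 := Finset.card_sdiff_add_card_inter B A
  rw [Finset.inter_comm B A] at h2
  rw [← Nat.not_even_iff_odd, ← Nat.not_even_iff_odd, ← Nat.not_even_iff_odd, Nat.even_iff,
    Nat.even_iff, Nat.even_iff]
  omega

end sd

end Pool.Agent.U81.MP
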